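import Mathlib

/-!
# Unit discs in a square: the equality `√12 n = F(s_n)` never holds

`s_n` is the minimal side length of a square which contains `n` nonoverlapping unit discs. Rows of a hexagonal packing
give `√12 (n - 1) ≥ (s_n - 2)²` for every `n ≥ 1`, and `(s - 2)² = F(s) + (√3 - 1)(s - 2)` for
`F(s) = s² - (3 + √3) s + 2 + 2 √3`; hence `√12 n - F(s_n) ≥ √12 + (√3 - 1)(s_n - 2) > 0` for every `n`, and the
difference tends to infinity.
-/

set_option autoImplicit false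

namespace Pool.Agent.Results.MP_77b5a8_co.NeverEquality

open Finset Metric Filter MeasureTheory
open scoped Real

/-- the Euclidean plane -/
abbrev Plane : Type := EuclideanSpace ℝ (Fin 2)

/-- the square `[0, s] × [0, s]` -/
def stdSquare (s : ℝ) : Set Plane := {x | ∀ i, 0 ≤ x i ∧ x i ≤ s}

/-- a square of side length `s` (in any position) -/
def IsSquareOfSide (Q : Set Plane) (s : ℝ) : Prop := ∃ φ : Plane ≃ᵢ Plane, Q = φ '' stdSquare s

/-- a square of side length `s` contains `n` nonoverlapping closed unit discs -/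
def Fits (n : ℕ) (s : ℝ) : Prop :=
  ∃ Q : Set Plane, IsSquareOfSide Q s ∧ ∃ c : Fin n → Plane, (∀ k, closedBall (c k) 1 ⊆ Q) ∧
    ∀ j k, j ≠ k → Disjoint (interior (closedBall (c j) 1)) (interior (closedBall (c k) 1))

/-- the minimal side length of a square which contains `n` nonoverlapping unit discs -/
noncomputable def side (n : ℕ) : ℝ := sInf {s : ℝ | Fits n s}

/-- the function of the problem -/
noncomputable def F (s : ℝ) : ℝ := s ^ 2 - (3 + √3) * s + 2 + 2 * √3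

lemma two_le_of_fits {n : ℕ} (hn : 1 ≤ n) {s : ℝ} (h : Fits n s) : 2 ≤ s := by
  obtain ⟨Q, ⟨φ, rfl⟩, c, h1, -⟩ := h
  have h2 := h1 ⟨0, hn⟩
  obtain ⟨z, hz⟩ : ∃ z, z = φ.symm (c ⟨0, hn⟩) := ⟨_, rfl⟩
  have h3 : ∀ y : Plane, dist y z ≤ 1 → y ∈ stdSquare s := by
    intro y hy
    have h4 : φ y ∈ closedBall (c ⟨0, hn⟩) 1 := by
      rw [mem_closedBall]
      have h5 : dist (φ y) (φ z) = dist y z := φ.dist_eq y z
      rw [hz, IsometryEquiv.apply_symm_apply] at h5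
      rw [h5, ← hz]
      exact hy
    obtain ⟨w, hw, hwy⟩ := h2 h4
    rwa [← φ.injective hwy]
  have h6 : ∀ t : ℝ, |t| ≤ 1 → dist (z + EuclideanSpace.single (0 : Fin 2) t) z ≤ 1 := by
    intro t ht
    rw [dist_eq_norm, add_sub_cancel_left, PiLp.norm_single]
    exact ht
  have h7 := (h3 _ (h6 1 (by norm_num)) 0).2
  have h8 := (h3 _ (h6 (-1) (by norm_num)) 0).1
  simp at h7 h8
  linarith

/-- the number of the discs in the first `k` rows -/
def w (m m' j : ℕ) : ℕ := if Even j then m else m'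

lemma rows (m m' : ℕ) (h : m' ≤ m) (k : ℕ) : k * (m + m') ≤ 2 * ∑ j ∈ range k, w m m' j := by
  induction k using Nat.twoStepInduction with
  | zero => simp
  | one => simp [w]; omega
  | more k ih _ =>
    rw [sum_range_succ, sum_range_succ]
    have h1 : w m m' k + w m m' (k + 1) = m + m' := by
      unfold w
      rcases Nat.even_or_odd k with h2 | h2
      · have h3 : ¬ Even (k + 1) := by
          rw [Nat.not_even_iff_odd]; exact h2.add_one
        rw [if_pos h2, if_neg h3]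
      · have h3 : Even (k + 1) := h2.add_one
        have h4 : ¬ Even k := Nat.not_even_iff_odd.2 h2
        rw [if_neg h4, if_pos h3]; omega
    calc (k + 2) * (m + m') = k * (m + m') + 2 * (m + m') := by ring
      _ ≤ 2 * ∑ j ∈ range k, w m m' j + 2 * (w m m' k + w m m' (k + 1)) := by rw [h1]; omega
      _ = _ := by ring

/-- the point of the hexagonal packing -/
noncomputable def pt (p : (_ : ℕ) × ℕ) : Plane := !₂[1 + 2 * (p.2 : ℝ) + ((p.1 % 2 : ℕ) : ℝ), 1 + (p.1 : ℝ) * √3]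

lemma key_int (i i' j j' : ℕ) (h : ¬ (j = j' ∧ i = i')) (a b : ℤ) (ha : a = ((j % 2 : ℕ) : ℤ))
    (hb : b = ((j' % 2 : ℕ) : ℤ)) : 4 ≤ (2 * ((i : ℤ) - i') + a - b) ^ 2 + 3 * ((j : ℤ) - j') ^ 2 := by
  rcases lt_trichotomy j j' with h1 | h1 | h1
  · rcases Nat.lt_or_ge (j + 1) j' with h2 | h2
    · have h4 : (j : ℤ) - j' ≤ -2 := by omega
      nlinarith [sq_nonneg (2 * ((i : ℤ) - i') + a - b)]
    · have h5 : 2 * ((i : ℤ) - i') + a - b ≤ -1 ∨ 1 ≤ 2 * ((i : ℤ) - i') + a - b := by omega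
      have h6 : 1 ≤ (2 * ((i : ℤ) - i') + a - b) ^ 2 := by rcases h5 with h5 | h5 <;> nlinarith
      have h7 : (j : ℤ) - j' = -1 := by omega
      rw [h7]; linarith
  · have h2 : i ≠ i' := fun h2 => h ⟨h1, h2⟩
    have h4 : (i : ℤ) - i' ≤ -1 ∨ 1 ≤ (i : ℤ) - i' := by omega
    have h5 : 1 ≤ ((i : ℤ) - i') ^ 2 := by rcases h4 with h4 | h4 <;> nlinarith
    have h8 : a = b := by rw [ha, hb, h1]
    have h6 : (2 * ((i : ℤ) - i') + a - b) ^ 2 = 4 * ((i : ℤ) - i') ^ 2 := by rw [h8]; ring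
    rw [h6]
    nlinarith [sq_nonneg ((j : ℤ) - j')]
  · rcases Nat.lt_or_ge (j' + 1) j with h2 | h2
    · have h4 : 2 ≤ (j : ℤ) - j' := by omega
      nlinarith [sq_nonneg (2 * ((i : ℤ) - i') + a - b)]
    · have h5 : 2 * ((i : ℤ) - i') + a - b ≤ -1 ∨ 1 ≤ 2 * ((i : ℤ) - i') + a - b := by omega
      have h6 : 1 ≤ (2 * ((i : ℤ) - i') + a - b) ^ 2 := by rcases h5 with h5 | h5 <;> nlinarith
      have h7 : (j : ℤ) - j' = 1 := by omega
      rw [h7]; linarith

lemma pt_dist {p q : (_ : ℕ) × ℕ} (h : p ≠ q) : 2 ≤ dist (pt p) (pt q) := by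
  rw [EuclideanSpace.dist_eq]
  apply Real.le_sqrt_of_sq_le
  simp only [Fin.sum_univ_two, Real.dist_eq, sq_abs]
  have h3 : √3 ^ 2 = 3 := Real.sq_sqrt (by norm_num)
  obtain ⟨j, i⟩ := p
  obtain ⟨j', i'⟩ := q
  have hne : ¬ (j = j' ∧ i = i') := by
    rintro ⟨rfl, rfl⟩
    exact h rfl
  obtain ⟨a, ha⟩ : ∃ a : ℤ, a = ((j % 2 : ℕ) : ℤ) := ⟨_, rfl⟩
  obtain ⟨b, hb⟩ : ∃ b : ℤ, b = ((j' % 2 : ℕ) : ℤ) := ⟨_, rfl⟩
  have ha' : ((j % 2 : ℕ) : ℝ) = (a : ℝ) := by rw [ha]; norm_cast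
  have hb' : ((j' % 2 : ℕ) : ℝ) = (b : ℝ) := by rw [hb]; norm_cast
  have hkey := key_int i i' j j' hne a b ha hb
  have hkey' : (4 : ℝ) ≤ (2 * ((i : ℝ) - i') + a - b) ^ 2 + 3 * ((j : ℝ) - j') ^ 2 := by
    have : ((4 : ℤ) : ℝ) ≤ (((2 * ((i : ℤ) - i') + a - b) ^ 2 + 3 * ((j : ℤ) - j') ^ 2 : ℤ) : ℝ) := by
      exact_mod_cast hkey
    push_cast at this
    exact this
  have e0 : (pt ⟨j, i⟩) 0 = 1 + 2 * (i : ℝ) + a := by simp [pt, ← ha']
  have e0' : (pt ⟨j', i'⟩) 0 = 1 + 2 * (i' : ℝ) + b := by simp [pt, ← hb']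
  have e1 : (pt ⟨j, i⟩) 1 = 1 + (j : ℝ) * √3 := by simp [pt]
  have e1' : (pt ⟨j', i'⟩) 1 = 1 + (j' : ℝ) * √3 := by simp [pt]
  rw [e0, e0', e1, e1']
  have e2 : (1 + (j : ℝ) * √3 - (1 + (j' : ℝ) * √3)) ^ 2 = √3 ^ 2 * ((j : ℝ) - j') ^ 2 := by ring
  have e3 : (1 + 2 * (i : ℝ) + a - (1 + 2 * (i' : ℝ) + b)) ^ 2 = (2 * ((i : ℝ) - i') + a - b) ^ 2 := by ring
  rw [e2, e3, h3]
  linarith

lemma ball_sub {s : ℝ} {c : Plane} (h : ∀ i, 1 ≤ c i ∧ c i ≤ s - 1) : closedBall c 1 ⊆ stdSquare s := by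
  intro x hx i
  rw [mem_closedBall, dist_eq_norm] at hx
  have h1 : |x i - c i| ≤ 1 := by
    have h2 := PiLp.norm_apply_le (x - c) i
    rw [Real.norm_eq_abs] at h2
    exact h2.trans hx
  have h2 := abs_le.1 h1
  have h3 := h i
  constructor <;> linarith

/-- the rows of the hexagonal packing -/
lemma fits_of_rows {n k m m' : ℕ} {s : ℝ} (hm : 2 * (m : ℝ) ≤ s) (hm' : 2 * (m' : ℝ) + 1 ≤ s)
    (hk : 2 + ((k : ℝ) - 1) * √3 ≤ s) (hmm : m' ≤ m) (hn : 2 * n < k * (m + m') + 2) : Fits n s := by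
  classical
  obtain ⟨S, hS⟩ : ∃ S : Finset ((_ : ℕ) × ℕ), S = (range k).sigma (fun j => range (w m m' j)) := ⟨_, rfl⟩
  have hcard : n ≤ S.card := by
    rw [hS, card_sigma]
    simp only [card_range]
    have := rows m m' hmm k
    omega
  obtain ⟨e⟩ : Nonempty (Fin n ↪ S) := by
    apply Function.Embedding.nonempty_of_card_le
    rw [Fintype.card_fin, Fintype.card_coe]
    exact hcard
  refine ⟨stdSquare s, ⟨IsometryEquiv.refl _, Set.ext fun x => ⟨fun h => ⟨x, h, rfl⟩, by rintro ⟨y, hy, rfl⟩; exact hy⟩⟩, fun i => pt (e i).1, fun i => ?_, fun i j hij => ?_⟩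
  · show closedBall (pt (e i).1) 1 ⊆ stdSquare s
    have hp := (e i).2
    generalize (e i).1 = q at hp ⊢
    obtain ⟨j, l⟩ := q
    rw [hS, mem_sigma, mem_range, mem_range] at hp
    obtain ⟨h1, h2⟩ := hp
    simp only at h1 h2
    apply ball_sub
    have h3 : (0 : ℝ) ≤ √3 := Real.sqrt_nonneg 3
    intro a
    have h1' : (j : ℝ) ≤ k - 1 := by
      have : ((j + 1 : ℕ) : ℝ) ≤ k := by exact_mod_cast h1
      push_cast at this; linarith
    have ha : a = 0 ∨ a = 1 := by omega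
    rcases ha with rfl | rfl
    · have e0 : (pt ⟨j, l⟩) 0 = 1 + 2 * (l : ℝ) + ((j % 2 : ℕ) : ℝ) := by simp [pt]
      rw [e0]
      unfold w at h2
      constructor
      · have : (0:ℝ) ≤ 2 * (l:ℝ) + ((j % 2 : ℕ) : ℝ) := by positivity
        linarith
      · split_ifs at h2 with h4
        · have h5 : j % 2 = 0 := Nat.even_iff.1 h4
          have h6 : ((l + 1 : ℕ) : ℝ) ≤ m := by exact_mod_cast h2
          push_cast at h6
          rw [h5]; push_cast; linarith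
        · have h5 : j % 2 = 1 := Nat.odd_iff.1 (Nat.not_even_iff_odd.1 h4)
          have h6 : ((l + 1 : ℕ) : ℝ) ≤ m' := by exact_mod_cast h2
          push_cast at h6
          rw [h5]; push_cast; linarith
    · have e1 : (pt ⟨j, l⟩) 1 = 1 + (j : ℝ) * √3 := by simp [pt]
      rw [e1]
      constructor
      · have : 0 ≤ (j : ℝ) * √3 := by positivity
        linarith
      · have : (j : ℝ) * √3 ≤ ((k : ℝ) - 1) * √3 := mul_le_mul_of_nonneg_right h1' h3
        linarith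
  · rw [interior_closedBall _ one_ne_zero, interior_closedBall _ one_ne_zero]
    apply ball_disjoint_ball
    have h1 : (e i).1 ≠ (e j).1 := fun h => hij (e.injective (Subtype.ext h))
    have := pt_dist h1
    linarith

/-- the explicit packing: the square of side length `2 + √(√12 (n - 1))` contains `n` unit discs -/
lemma fits_star {n : ℕ} (hn : 1 ≤ n) : Fits n (2 + √(√12 * ((n : ℝ) - 1))) := by
  have hn' : (0 : ℝ) ≤ (n : ℝ) - 1 := by
    have : (1 : ℝ) ≤ n := by exact_mod_cast hn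
    linarith
  obtain ⟨s, hs⟩ : ∃ s, s = 2 + √(√12 * ((n : ℝ) - 1)) := ⟨_, rfl⟩
  rw [← hs]
  have h12 : √12 = 2 * √3 := by
    rw [show (12 : ℝ) = 2 ^ 2 * 3 by norm_num, Real.sqrt_mul (by norm_num), Real.sqrt_sq (by norm_num)]
  have h3 : (0 : ℝ) < √3 := Real.sqrt_pos.2 (by norm_num)
  have hs2 : 2 ≤ s := by rw [hs]; linarith [Real.sqrt_nonneg (√12 * ((n : ℝ) - 1))]
  have hsq : (s - 2) ^ 2 = 2 * √3 * ((n : ℝ) - 1) := by
    rw [hs, add_sub_cancel_left, Real.sq_sqrt (by positivity), h12]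
  obtain ⟨t, ht⟩ : ∃ t, t = (s - 2) / √3 := ⟨_, rfl⟩
  have ht0 : 0 ≤ t := by rw [ht]; apply div_nonneg <;> linarith
  have ht1 : t * √3 = s - 2 := by rw [ht]; field_simp
  obtain ⟨k, hk⟩ : ∃ k, k = ⌊t⌋₊ + 1 := ⟨_, rfl⟩
  obtain ⟨m, hm⟩ : ∃ m, m = ⌊s / 2⌋₊ := ⟨_, rfl⟩
  obtain ⟨m', hm'⟩ : ∃ m', m' = ⌊(s - 1) / 2⌋₊ := ⟨_, rfl⟩
  have hm1 : (m : ℝ) ≤ s / 2 := by rw [hm]; exact Nat.floor_le (by linarith)
  have hm2 : (m' : ℝ) ≤ (s - 1) / 2 := by rw [hm']; exact Nat.floor_le (by linarith)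
  have hm3 : s / 2 < m + 1 := by rw [hm]; exact Nat.lt_floor_add_one _
  have hm4 : (s - 1) / 2 < m' + 1 := by rw [hm']; exact Nat.lt_floor_add_one _
  have hk1 : ((k : ℝ) - 1) ≤ t := by rw [hk]; push_cast; linarith [Nat.floor_le ht0]
  have hk2 : t < k := by rw [hk]; push_cast; exact Nat.lt_floor_add_one _
  have hmm : m' ≤ m := by rw [hm, hm']; exact Nat.floor_le_floor (by linarith)
  -- the sum `m + m'` is more than `s - 2`
  have hsum : s - 2 < ((m + m' : ℕ) : ℝ) := by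
    have h5 : m' = m ∨ m' + 1 = m := by
      by_contra hcon
      have h6 : m' + 2 ≤ m := by omega
      have h7 : (m' : ℝ) + 2 ≤ m := by exact_mod_cast h6
      linarith
    push_cast
    rcases h5 with h5 | h5
    · rw [h5]; linarith
    · have h6 : (m' : ℝ) + 1 = m := by exact_mod_cast h5
      linarith
  apply fits_of_rows (k := k) (m := m) (m' := m') (by linarith) (by linarith) _ hmm
  · have h8 : ((n - 1 : ℕ) : ℝ) * 2 < (k : ℝ) * ((m + m' : ℕ) : ℝ) := by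
      have h9 : ((n - 1 : ℕ) : ℝ) * 2 = t * (s - 2) := by
        push_cast [Nat.cast_sub hn]
        have : t * (s - 2) * √3 = ((n : ℝ) - 1) * 2 * √3 := by
          calc t * (s - 2) * √3 = (t * √3) * (s - 2) := by ring
            _ = (s - 2) ^ 2 := by rw [ht1]; ring
            _ = _ := by rw [hsq]; ring
        exact (mul_right_cancel₀ h3.ne' this).symm
      rw [h9]
      exact mul_lt_mul'' hk2 hsum ht0 (by linarith)
    have h9 : (n - 1) * 2 < k * (m + m') := by exact_mod_cast h8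
    generalize k * (m + m') = K at h9
    omega
  · nlinarith [mul_le_mul_of_nonneg_right hk1 h3.le]

/-- the lower bound for the number of the discs -/
lemma side_bound {n : ℕ} (hn : 1 ≤ n) : 2 ≤ side n ∧ (side n - 2) ^ 2 + √12 ≤ √12 * n := by
  have hn' : (0 : ℝ) ≤ (n : ℝ) - 1 := by
    have : (1 : ℝ) ≤ n := by exact_mod_cast hn
    linarith
  have h1 : side n ≤ 2 + √(√12 * ((n : ℝ) - 1)) :=
    csInf_le ⟨2, fun s hs => two_le_of_fits hn hs⟩ (fits_star hn)
  have h2 : 2 ≤ side n := le_csInf ⟨_, fits_star hn⟩ fun s hs => two_le_of_fits hn hs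
  refine ⟨h2, ?_⟩
  have h3 : (side n - 2) ^ 2 ≤ √12 * ((n : ℝ) - 1) := by
    rw [← Real.sq_sqrt (show 0 ≤ √12 * ((n : ℝ) - 1) by positivity)]
    exact pow_le_pow_left₀ (by linarith) (by linarith) 2
  linarith

/-- the difference is positive for every `n`: the equality never holds -/
theorem result :
    (∀ n : ℕ, 1 ≤ n → (side n - 2) ^ 2 + √12 ≤ √12 * n) ∧
    (∀ n : ℕ, 1 ≤ n → F (side n) + √12 + (√3 - 1) * (side n - 2) ≤ √12 * n) ∧
    (∀ n : ℕ, 1 ≤ n → √12 * n ≠ F (side n)) ∧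
    ¬ {n : ℕ | 1 ≤ n ∧ √12 * n = F (side n)}.Infinite := by
  have h12 : (0 : ℝ) < √12 := Real.sqrt_pos.2 (by norm_num)
  have h3 : 1 ≤ √3 := by
    rw [show (1 : ℝ) = √1 by simp]; exact Real.sqrt_le_sqrt (by norm_num)
  have hF : ∀ s, F s + (√3 - 1) * (s - 2) = (s - 2) ^ 2 + 0 := by
    intro s; unfold F; ring_nf
  have hA : ∀ n : ℕ, 1 ≤ n → F (side n) + √12 + (√3 - 1) * (side n - 2) ≤ √12 * n := by
    intro n hn
    have := (side_bound hn).2
    have h5 := hF (side n)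
    linarith
  have hB : ∀ n : ℕ, 1 ≤ n → √12 * n ≠ F (side n) := by
    intro n hn heq
    have h5 := hA n hn
    have h6 : 0 ≤ (√3 - 1) * (side n - 2) := mul_nonneg (by linarith) (by linarith [(side_bound hn).1])
    linarith
  refine ⟨fun n hn => (side_bound hn).2, hA, hB, ?_⟩
  have : {n : ℕ | 1 ≤ n ∧ √12 * n = F (side n)} = ∅ := by
    ext n
    simp only [Set.mem_ofPred_eq, Set.mem_empty_iff_false, iff_false, not_and]
    exact fun hn => hB n hn
  rw [this]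
  exact Set.finite_empty.not_infinite

end Pool.Agent.Results.MP_77b5a8_co.NeverEquality
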